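import Pool.Agent.Lib_helper8.Vu.Pieces

/-!
Vu's conjecture on list colouring with bounded codegree, dense case, in a stronger form in which
only the codegrees of ADJACENT vertices matter.

(1) For every `σ > 0` there are `δ > 0` and `n₀` such that for all `n ≥ n₀` and all real `c ≥ 0`
(also depending on `n`): every graph on `n` vertices in which at most `δ n²` ordered pairs of
adjacent vertices have more than `c` common neighbours can be properly coloured from all lists of
size at least `c + σ n`.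

(2) Vu's bound `(ζ + ε) Δ` holds, for all `ζ, ε > 0` and all list assignments, for the graphs
whose vertex set splits into consecutive pieces of at most `C Δ` vertices each, such that adjacent
vertices of the same piece have at most `ζ Δ` common neighbours and every vertex has at most `θ Δ`
neighbours in the pieces before its own, where `θ < ε`. With one piece (`p` constant, `θ = 0`)
these are all graphs with at most `C Δ` vertices.
-/

set_option autoImplicit false

namespace Pool.Agent.Results.MP_aa8d53_co.Dense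

theorem result :
    (∀ σ : ℝ, 0 < σ → ∃ δ : ℝ, 0 < δ ∧ ∃ n₀ : ℕ, ∀ n : ℕ, n₀ ≤ n →
      ∀ (G : SimpleGraph (Fin n)) [DecidableRel G.Adj] (c : ℝ), 0 ≤ c →
        (({p : Fin n × Fin n | G.Adj p.1 p.2 ∧
          c < (((G.neighborFinset p.1 ∩ G.neighborFinset p.2).card : ℕ) : ℝ)}.ncard : ℕ) : ℝ)
            ≤ δ * (n : ℝ) ^ 2 →
        ∀ L : Fin n → Finset ℕ, (∀ v, c + σ * (n : ℝ) ≤ ((L v).card : ℝ)) →
          ∃ f : Fin n → ℕ, (∀ v, f v ∈ L v) ∧ ∀ u v, G.Adj u v → f u ≠ f v) ∧
    (∀ ζ ε θ C : ℝ, 0 < ζ → 0 ≤ θ → θ < ε → ∃ Δ₀ : ℕ, ∀ Δ : ℕ, Δ₀ ≤ Δ →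
      ∀ (n : ℕ) (G : SimpleGraph (Fin n)) [DecidableRel G.Adj] (p : Fin n → ℕ),
        (∀ u v, G.Adj u v → p u = p v →
          (((G.neighborFinset u ∩ G.neighborFinset v).card : ℕ) : ℝ) ≤ ζ * (Δ : ℝ)) →
        (∀ i, (((Finset.univ.filter (fun v => p v = i)).card : ℕ) : ℝ) ≤ C * (Δ : ℝ)) →
        (∀ v, ((((G.neighborFinset v).filter (fun u => p u < p v)).card : ℕ) : ℝ)
          ≤ θ * (Δ : ℝ)) →
        ∀ L : Fin n → Finset ℕ, (∀ v, ⌊(ζ + ε) * (Δ : ℝ)⌋₊ ≤ (L v).card) →
          ∃ f : Fin n → ℕ, (∀ v, f v ∈ L v) ∧ ∀ u v, G.Adj u v → f u ≠ f v) := by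
  classical
  refine ⟨?_, ?_⟩
  · intro σ hσ
    obtain ⟨δ, hδ, n0, h⟩ := Pool.Agent.Lib_helper8.Vu.list_col_dense σ hσ
    refine ⟨δ, hδ, n0, ?_⟩
    intro n hn G _ c hc hcod L hL
    refine h (Fin n) G c L (by rwa [Fintype.card_fin]) hc ?_ ?_
    · rw [Fintype.card_fin]
      refine le_trans (le_of_eq ?_) hcod
      congr 1
      rw [← Set.ncard_coe_finset]
      congr 1
      ext p
      rw [Finset.mem_coe, Pool.Agent.Lib_helper8.Vu.badp, Finset.mem_filter,
        Pool.Agent.Lib_helper8.Vu.adjp, Finset.mem_filter,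
        Pool.Agent.Lib_helper8.Vu.cod_eq_inter, Set.mem_ofPred_eq]
      simp
    · intro v
      rw [Fintype.card_fin]
      exact hL v
  · intro ζ ε θ C hζ hθ hθε
    obtain ⟨D0, h⟩ := Pool.Agent.Lib_helper8.Vu.list_col_pieces ζ ε θ C hζ.le hθ hθε
    refine ⟨D0, ?_⟩
    intro D hD n G _ p hcod hp1 hp2 L hL
    refine h D hD (Fin n) G p ?_ hp1 ?_ L hL
    · intro u v huv hpuv
      rw [Pool.Agent.Lib_helper8.Vu.cod_eq_inter]
      exact hcod u v huv hpuv
    · intro v
      refine le_trans (le_of_eq ?_) (hp2 v)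
      congr 2
      ext u
      simp

end Pool.Agent.Results.MP_aa8d53_co.Dense
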