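import Mathlib
import Pool.Agent.S10699

/-!
# Vu's conjecture on list colouring with bounded codegree

The list chromatic number of a finite graph of maximum degree at most `Δ` is at most the maximum
codegree plus `ε Δ`, if `Δ` is large in terms of `ε`.
-/

set_option autoImplicit false

namespace Pool.Agent.Results.MP_aa8d53_co.ListChromatic

/-- The codegree of two vertices: the number of their common neighbours. -/
def codegree {V : Type*} [Fintype V] (G : SimpleGraph V) [DecidableEq V] [DecidableRel G.Adj]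
    (u v : V) : ℕ :=
  (Finset.univ.filter (fun w => G.Adj u w ∧ G.Adj v w)).card

/-- The maximum codegree: the largest codegree over all pairs of distinct vertices (`0` if there is
no such pair). -/
def maxCodegree {V : Type*} [Fintype V] (G : SimpleGraph V) [DecidableEq V]
    [DecidableRel G.Adj] : ℕ :=
  (Finset.univ.filter (fun p : V × V => p.1 ≠ p.2)).sup (fun p => codegree G p.1 p.2)

/-- `G` is `k`-choosable: for every assignment of lists (sets of colours, finite or infinite) with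
at least `k` elements there is a proper colouring in which every vertex has a colour of its list. -/
def Choosable {V : Type*} (G : SimpleGraph V) (k : ℕ) : Prop :=
  ∀ (C : Type) (L : V → Set C), (∀ v, (k : ℕ∞) ≤ (L v).encard) →
    ∃ c : V → C, (∀ v, c v ∈ L v) ∧ ∀ u v, G.Adj u v → c u ≠ c v

/-- The list chromatic number: the least `k` such that `G` is `k`-choosable. -/
noncomputable def listChromaticNumber {V : Type*} (G : SimpleGraph V) : ℕ :=
  sInf {k | Choosable G k}

section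

variable {V : Type*}

/-- Choosability from lists of natural numbers on an isomorphic graph. -/
theorem choosable_of [Fintype V] (G : SimpleGraph V) (n : ℕ) (e : Fin n ≃ V) (k : ℕ)
    (h : ∀ L : Fin n → Finset ℕ, (∀ v, k ≤ (L v).card) →
      ∃ f : Fin n → ℕ, (∀ v, f v ∈ L v) ∧ ∀ u v, (G.comap e).Adj u v → f u ≠ f v) :
    Choosable G k := by
  classical
  intro C L hL
  have h1 : ∀ v, ∃ s : Finset C, (s : Set C) ⊆ L v ∧ s.card = k := by
    intro v
    obtain ⟨t, ht, ht'⟩ := Set.exists_subset_encard_eq (hL v)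
    have hfin : t.Finite := Set.finite_of_encard_eq_coe ht'
    refine ⟨hfin.toFinset, by simpa using ht, ?_⟩
    have h2 := hfin.encard_eq_coe_toFinset_card
    rw [ht'] at h2
    exact_mod_cast h2.symm
  choose s hs hsk using h1
  set U : Finset C := Finset.univ.biUnion s with hU
  have hsU : ∀ v, s v ⊆ U := fun v => Finset.subset_biUnion_of_mem s (Finset.mem_univ v)
  let g : U ≃ Fin U.card := U.equivFin
  let L' : Fin n → Finset ℕ := fun i => (s (e i)).attach.image
    (fun x => ((g ⟨x.1, hsU _ x.2⟩ : Fin U.card) : ℕ))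
  obtain ⟨f, hf, hf'⟩ := h L' (fun i => by
    have hinj : Function.Injective (fun x : {x // x ∈ s (e i)} =>
        ((g ⟨x.1, hsU _ x.2⟩ : Fin U.card) : ℕ)) := by
      intro x y hxy
      have h3 : g ⟨x.1, hsU _ x.2⟩ = g ⟨y.1, hsU _ y.2⟩ := Fin.ext hxy
      have h4 := g.injective h3
      exact Subtype.ext (congrArg (fun z : {z // z ∈ U} => (z : C)) h4)
    change k ≤ ((s (e i)).attach.image _).card
    rw [Finset.card_image_of_injective _ hinj, Finset.card_attach, hsk])
  have h5 : ∀ i, ∃ x : {x // x ∈ s (e i)}, ((g ⟨x.1, hsU _ x.2⟩ : Fin U.card) : ℕ) = f i := by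
    intro i
    obtain ⟨x, -, hx⟩ := Finset.mem_image.mp (hf i)
    exact ⟨x, hx⟩
  choose x hx using h5
  have hes : ∀ v, s (e (e.symm v)) = s v := fun v => by rw [e.apply_symm_apply]
  refine ⟨fun v => (x (e.symm v)).1, fun v => ?_, fun u v huv heq => ?_⟩
  · exact hs v ((hes v).subset (x (e.symm v)).2)
  · have h7 : (G.comap e).Adj (e.symm u) (e.symm v) := by
      rw [SimpleGraph.comap_adj, e.apply_symm_apply, e.apply_symm_apply]
      exact huv
    apply hf' _ _ h7
    rw [← hx, ← hx]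
    have h8 : (⟨(x (e.symm u)).1, hsU _ (x (e.symm u)).2⟩ : {z // z ∈ U}) =
        ⟨(x (e.symm v)).1, hsU _ (x (e.symm v)).2⟩ := Subtype.ext heq
    rw [h8]

end

/-- The main bound: list chromatic number at most maximum codegree plus `ε Δ`. -/
theorem bound (ε : ℝ) (hε : 0 < ε) : ∃ Δ₀ : ℕ, ∀ Δ : ℕ, Δ₀ ≤ Δ →
    ∀ {V : Type*} [Fintype V] (G : SimpleGraph V) [DecidableEq V] [DecidableRel G.Adj],
      G.maxDegree ≤ Δ → ∃ k : ℕ, Choosable G k ∧ (k : ℝ) ≤ maxCodegree G + ε * Δ := by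
  classical
  set η : ℝ := ε / 2 with hη
  have hη0 : 0 < η := by rw [hη]; linarith
  have hD : ∀ i : ℕ, ∃ Δ₀ : ℕ, ∀ Δ : ℕ, Δ₀ ≤ Δ →
      ∀ (n : ℕ) (G : SimpleGraph (Fin n)) [DecidableRel G.Adj],
        (∀ v, G.degree v ≤ Δ) →
        (∀ u v, u ≠ v →
          (((G.neighborFinset u ∩ G.neighborFinset v).card : ℕ) : ℝ) ≤
            (((i : ℝ) + 1) * η) * (Δ : ℝ)) →
        ∀ L : Fin n → Finset ℕ, (∀ v, ⌊((((i : ℝ) + 1) * η) + η) * (Δ : ℝ)⌋₊ ≤ (L v).card) →
          ∃ f : Fin n → ℕ, (∀ v, f v ∈ L v) ∧ ∀ u v, G.Adj u v → f u ≠ f v := by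
    intro i
    exact Pool.Agent.S10699.result (((i : ℝ) + 1) * η) η (by positivity) hη0
  choose D hD' using hD
  obtain ⟨N, hN⟩ := exists_nat_ge (1 / η)
  refine ⟨max 1 ((Finset.range (N + 1)).sup D), fun Δ hΔ V _ G _ _ hdeg => ?_⟩
  have hΔ1 : 1 ≤ Δ := le_trans (le_max_left _ _) hΔ
  have hΔ0 : (0 : ℝ) < Δ := by exact_mod_cast hΔ1
  have hΔD : ∀ i ≤ N, D i ≤ Δ := by
    intro i hi
    have h1 : D i ≤ (Finset.range (N + 1)).sup D :=
      Finset.le_sup (Finset.mem_range.mpr (Nat.lt_succ_of_le hi))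
    exact h1.trans ((le_max_right _ _).trans hΔ)
  set c : ℕ := maxCodegree G with hc
  have hcΔ : c ≤ Δ := by
    rw [hc]
    refine Finset.sup_le fun p _ => ?_
    refine le_trans ?_ ((G.degree_le_maxDegree p.1).trans hdeg)
    rw [← SimpleGraph.card_neighborFinset_eq_degree]
    refine Finset.card_le_card fun w hw => ?_
    rw [SimpleGraph.mem_neighborFinset]
    exact (Finset.mem_filter.mp hw).2.1
  set i : ℕ := ⌊(c : ℝ) / (η * Δ)⌋₊ with hi
  have hpos : 0 < η * Δ := mul_pos hη0 hΔ0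
  have hi1 : (i : ℝ) * (η * Δ) ≤ c := by
    have h1 : (i : ℝ) ≤ (c : ℝ) / (η * Δ) := Nat.floor_le (by positivity)
    rwa [le_div_iff₀ hpos] at h1
  have hi2 : (c : ℝ) < ((i : ℝ) + 1) * (η * Δ) := by
    have h1 : (c : ℝ) / (η * Δ) < (i : ℝ) + 1 := Nat.lt_floor_add_one _
    rwa [div_lt_iff₀ hpos] at h1
  have hiN : i ≤ N := by
    have h1 : (i : ℝ) * (η * Δ) ≤ Δ := hi1.trans (by exact_mod_cast hcΔ)
    have h2 : (i : ℝ) * η ≤ 1 := by
      by_contra h3
      push Not at h3
      have h4 : (1 : ℝ) * Δ < (i : ℝ) * η * Δ := mul_lt_mul_of_pos_right h3 hΔ0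
      rw [one_mul, mul_assoc] at h4
      exact absurd h1 (not_le.mpr h4)
    have h3 : (i : ℝ) ≤ 1 / η := by rwa [le_div_iff₀ hη0]
    exact_mod_cast h3.trans hN
  let e : Fin (Fintype.card V) ≃ V := (Fintype.equivFin V).symm
  have hnb : ∀ u, (G.comap e).neighborFinset u =
      (G.neighborFinset (e u)).map e.symm.toEmbedding := by
    intro u
    ext w
    rw [SimpleGraph.mem_neighborFinset, SimpleGraph.comap_adj, Finset.mem_map]
    constructor
    · intro h
      exact ⟨e w, by rwa [SimpleGraph.mem_neighborFinset], by simp⟩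
    · rintro ⟨x, hx, rfl⟩
      rw [SimpleGraph.mem_neighborFinset] at hx
      simpa using hx
  refine ⟨⌊((((i : ℝ) + 1) * η) + η) * (Δ : ℝ)⌋₊, choosable_of G _ e _ ?_, ?_⟩
  · refine hD' i Δ (hΔD i hiN) _ (G.comap e) (fun v => ?_) (fun u v huv => ?_)
    · rw [← SimpleGraph.card_neighborFinset_eq_degree, hnb, Finset.card_map,
        SimpleGraph.card_neighborFinset_eq_degree]
      exact (G.degree_le_maxDegree _).trans hdeg
    · rw [hnb, hnb, ← Finset.map_inter, Finset.card_map]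
      have h1 : (G.neighborFinset (e u) ∩ G.neighborFinset (e v)).card ≤ c := by
        have h2 : codegree G (e u) (e v) ≤ c := by
          rw [hc]
          refine Finset.le_sup (f := fun p : V × V => codegree G p.1 p.2)
            (b := (e u, e v)) ?_
          rw [Finset.mem_filter]
          exact ⟨Finset.mem_univ _, fun h => huv (e.injective h)⟩
        refine le_trans (Finset.card_le_card fun w hw => ?_) h2
        rw [Finset.mem_inter, SimpleGraph.mem_neighborFinset, SimpleGraph.mem_neighborFinset] at hw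
        rw [Finset.mem_filter]
        exact ⟨Finset.mem_univ _, hw⟩
      calc (((G.neighborFinset (e u) ∩ G.neighborFinset (e v)).card : ℕ) : ℝ) ≤ c := by
            exact_mod_cast h1
        _ ≤ ((i : ℝ) + 1) * (η * Δ) := hi2.le
        _ = (((i : ℝ) + 1) * η) * (Δ : ℝ) := by ring
  · refine (Nat.floor_le (by positivity)).trans ?_
    have h1 : ((((i : ℝ) + 1) * η) + η) * (Δ : ℝ) = (i : ℝ) * (η * Δ) + 2 * η * Δ := by ring
    have h2 : 2 * η * Δ = ε * Δ := by rw [hη]; ring
    rw [h1, h2]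
    linarith

/-- **Vu's conjecture**, list version. For every `ε > 0` there is `Δ₀` such that for all real
numbers `Δ ≥ Δ₀` and `ζ`, every finite graph with maximum degree at most `Δ` and maximum codegree at
most `ζ Δ` has list chromatic number at most `(ζ + ε) Δ`. -/
theorem result (ε : ℝ) (hε : 0 < ε) : ∃ Δ₀ : ℝ, ∀ Δ ζ : ℝ, Δ₀ ≤ Δ →
    ∀ (V : Type*) [Fintype V] (G : SimpleGraph V) [DecidableEq V] [DecidableRel G.Adj],
      (G.maxDegree : ℝ) ≤ Δ → (maxCodegree G : ℝ) ≤ ζ * Δ →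
        Choosable G (listChromaticNumber G) ∧ (listChromaticNumber G : ℝ) ≤ (ζ + ε) * Δ := by
  obtain ⟨D, hD⟩ := bound ε hε
  refine ⟨(D : ℝ) + 1, fun Δ ζ hΔ V _ G _ _ h1 h2 => ?_⟩
  have hΔ0 : 0 ≤ Δ := by
    have h3 : (0 : ℝ) ≤ D := Nat.cast_nonneg D
    linarith
  have h3 : D ≤ ⌊Δ⌋₊ := Nat.le_floor (by linarith)
  have h4 : G.maxDegree ≤ ⌊Δ⌋₊ := Nat.le_floor h1
  obtain ⟨k, hk, hk'⟩ := hD ⌊Δ⌋₊ h3 G h4
  refine ⟨Nat.sInf_mem (s := {k | Choosable G k}) ⟨k, hk⟩, ?_⟩
  have h5 : (listChromaticNumber G : ℝ) ≤ k := by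
    exact_mod_cast Nat.sInf_le (s := {k | Choosable G k}) hk
  have h6 : (⌊Δ⌋₊ : ℝ) ≤ Δ := Nat.floor_le hΔ0
  have h7 : ε * (⌊Δ⌋₊ : ℝ) ≤ ε * Δ := mul_le_mul_of_nonneg_left h6 hε.le
  calc (listChromaticNumber G : ℝ) ≤ k := h5
    _ ≤ maxCodegree G + ε * (⌊Δ⌋₊ : ℝ) := hk'
    _ ≤ ζ * Δ + ε * Δ := by linarith
    _ = (ζ + ε) * Δ := by ring

end Pool.Agent.Results.MP_aa8d53_co.ListChromatic
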